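import Pool.Agent.Helper87_LeoG.Idn

/-!
Module THU of squad LEOG: the sum of two cubes.
-/

set_option autoImplicit false

open Pool.Agent.LeoK

namespace Pool.Agent.LeoG.H87

lemma th_0 (u : Fin 4 → ℝ) : th u 0 = u 0 ^ 3 + u 2 ^ 3 := rfl
lemma th_1 (u : Fin 4 → ℝ) : th u 1 = 3 * (u 0 ^ 2 * u 1 + u 2 ^ 2 * u 3) := rfl
lemma th_2 (u : Fin 4 → ℝ) : th u 2 = 3 * (u 0 * u 1 ^ 2 + u 2 * u 3 ^ 2) := rfl
lemma th_3 (u : Fin 4 → ℝ) : th u 3 = u 1 ^ 3 + u 3 ^ 3 := rfl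

lemma mm_th (u : Fin 4 → ℝ) : mm (th u) = 27 * dt u ^ 6 := by
  rw [mm, dsc, th_0, th_1, th_2, th_3, dt]
  ring

lemma gval_th (u : Fin 4 → ℝ) (X Y : ℝ) :
    gval (th u) X Y = (u 0 * X + u 1 * Y) ^ 3 + (u 2 * X + u 3 * Y) ^ 3 := by
  rw [gval, th_0, th_1, th_2, th_3]
  ring

lemma gcov_th (u : Fin 4 → ℝ) (X Y : ℝ) :
    gcov (th u) X Y =
      27 * dt u ^ 3 * ((u 0 * X + u 1 * Y) ^ 3 - (u 2 * X + u 3 * Y) ^ 3) := by
  rw [gcov, th_0, th_1, th_2, th_3, dt]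
  ring

lemma abs_cube_rpow (x : ℝ) : |x ^ 3| ^ (2 / 3 : ℝ) = x ^ 2 := by
  rw [abs_pow, ← Real.rpow_natCast |x| 3, ← Real.rpow_mul (abs_nonneg x)]
  norm_num

lemma sqrt_mm_th (u : Fin 4 → ℝ) : Real.sqrt (27 * mm (th u)) = 27 * |dt u| ^ 3 := by
  rw [mm_th]
  have h : 27 * (27 * dt u ^ 6) = (27 * |dt u| ^ 3) ^ 2 := by
    have h1 : |dt u| ^ 2 = dt u ^ 2 := sq_abs _
    calc 27 * (27 * dt u ^ 6) = 27 * 27 * (dt u ^ 2) ^ 3 := by ring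
      _ = 27 * 27 * (|dt u| ^ 2) ^ 3 := by rw [h1]
      _ = _ := by ring
  rw [h, Real.sqrt_sq (by positivity)]

lemma hz_th (u : Fin 4 → ℝ) (hu : dt u ≠ 0) (X Y : ℝ) :
    hz (th u) X Y = ((u 0 * X + u 1 * Y) ^ 2 + (u 2 * X + u 3 * Y) ^ 2) / (2 * |dt u|) := by
  have hd : 0 < |dt u| := abs_pos.mpr hu
  have h1 : (mm (th u) / 27) ^ (1 / 6 : ℝ) = |dt u| := by
    rw [mm_th]
    have h2 : 27 * dt u ^ 6 / 27 = |dt u| ^ 6 := by
      have h3 : |dt u| ^ 2 = dt u ^ 2 := sq_abs _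
      calc 27 * dt u ^ 6 / 27 = (dt u ^ 2) ^ 3 := by ring
        _ = (|dt u| ^ 2) ^ 3 := by rw [h3]
        _ = _ := by ring
    rw [h2, ← Real.rpow_natCast |dt u| 6, ← Real.rpow_mul (abs_nonneg _)]
    norm_num
  rw [hz, h1, gval_th, gcov_th, sqrt_mm_th]
  set a := u 0 * X + u 1 * Y
  set b := u 2 * X + u 3 * Y
  rcases lt_or_gt_of_ne hu with h | h
  · have h2 : |dt u| = -dt u := abs_of_neg h
    have h3 : 27 * dt u ^ 3 * (a ^ 3 - b ^ 3) / (27 * |dt u| ^ 3) = b ^ 3 - a ^ 3 := by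
      rw [h2]
      field_simp
      ring
    rw [h3]
    have h4 : (a ^ 3 + b ^ 3 + (b ^ 3 - a ^ 3)) / 2 = b ^ 3 := by ring
    have h5 : (a ^ 3 + b ^ 3 - (b ^ 3 - a ^ 3)) / 2 = a ^ 3 := by ring
    rw [h4, h5, abs_cube_rpow, abs_cube_rpow, add_comm]
  · have h2 : |dt u| = dt u := abs_of_pos h
    have h3 : 27 * dt u ^ 3 * (a ^ 3 - b ^ 3) / (27 * |dt u| ^ 3) = a ^ 3 - b ^ 3 := by
      rw [h2]
      field_simp
    rw [h3]
    have h4 : (a ^ 3 + b ^ 3 + (a ^ 3 - b ^ 3)) / 2 = a ^ 3 := by ring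
    have h5 : (a ^ 3 + b ^ 3 - (a ^ 3 - b ^ 3)) / 2 = b ^ 3 := by ring
    rw [h4, h5, abs_cube_rpow, abs_cube_rpow]

/-- THU -/
theorem thu : ThuStmt := fun u => ⟨mm_th u, gval_th u, hz_th u⟩

lemma cube_inj {x y : ℝ} (h : x ^ 3 = y ^ 3) : x = y :=
  (Odd.strictMono_pow (by decide : Odd 3)).injective h

lemma exists_cube (r : ℝ) : ∃ c : ℝ, c ^ 3 = r := by
  rcases le_total 0 r with h | h
  · refine ⟨r ^ (1 / 3 : ℝ), ?_⟩
    rw [← Real.rpow_natCast, ← Real.rpow_mul h]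
    norm_num
  · refine ⟨-((-r) ^ (1 / 3 : ℝ)), ?_⟩
    have h1 : ((-r) ^ (1 / 3 : ℝ)) ^ 3 = -r := by
      rw [← Real.rpow_natCast, ← Real.rpow_mul (by linarith)]
      norm_num
    rw [neg_pow, h1]
    norm_num

lemma th_inj (u u' : Fin 4 → ℝ) (hu : 0 < dt u) (hu' : 0 < dt u') (h : th u = th u') : u = u' := by
  have h1 : dt u = dt u' := by
    have h2 : dt u ^ 6 = dt u' ^ 6 := by
      have h3 := mm_th u
      rw [h, mm_th] at h3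
      linarith
    exact (pow_left_inj₀ hu.le hu'.le (by norm_num)).mp h2
  have key : ∀ X Y : ℝ, u 0 * X + u 1 * Y = u' 0 * X + u' 1 * Y ∧
      u 2 * X + u 3 * Y = u' 2 * X + u' 3 * Y := by
    intro X Y
    have h2 := gval_th u X Y
    have h3 := gcov_th u X Y
    rw [h, gval_th] at h2
    rw [h, gcov_th, ← h1] at h3
    have h4 : (u' 0 * X + u' 1 * Y) ^ 3 - (u' 2 * X + u' 3 * Y) ^ 3 =
        (u 0 * X + u 1 * Y) ^ 3 - (u 2 * X + u 3 * Y) ^ 3 := by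
      have h5 : (27 * dt u ^ 3 : ℝ) ≠ 0 := by positivity
      exact mul_left_cancel₀ h5 h3
    exact ⟨cube_inj (by linarith), cube_inj (by linarith)⟩
  have h2 := key 1 0
  have h3 := key 0 1
  simp only [mul_one, mul_zero, add_zero, zero_add] at h2 h3
  funext i
  fin_cases i
  · exact h2.1
  · exact h3.1
  · exact h2.2
  · exact h3.2

lemma th_swap (u : Fin 4 → ℝ) : th ![u 2, u 3, u 0, u 1] = th u := by
  funext i
  fin_cases i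
  · change u 2 ^ 3 + u 0 ^ 3 = u 0 ^ 3 + u 2 ^ 3
    ring
  · change 3 * (u 2 ^ 2 * u 3 + u 0 ^ 2 * u 1) = 3 * (u 0 ^ 2 * u 1 + u 2 ^ 2 * u 3)
    ring
  · change 3 * (u 2 * u 3 ^ 2 + u 0 * u 1 ^ 2) = 3 * (u 0 * u 1 ^ 2 + u 2 * u 3 ^ 2)
    ring
  · change u 3 ^ 3 + u 1 ^ 3 = u 1 ^ 3 + u 3 ^ 3
    ring

lemma dt_swap (u : Fin 4 → ℝ) : dt ![u 2, u 3, u 0, u 1] = - dt u := by
  change u 2 * u 1 - u 3 * u 0 = -(u 0 * u 3 - u 1 * u 2)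
  ring

lemma th_surj' (v : Q4 ℝ) (hv : 0 < mm v) : ∃ u : Fin 4 → ℝ, th u = v := by
  obtain ⟨a, ha⟩ : ∃ a, v 0 = a := ⟨_, rfl⟩
  obtain ⟨b, hb⟩ : ∃ b, v 1 = b := ⟨_, rfl⟩
  obtain ⟨c, hc⟩ : ∃ c, v 2 = c := ⟨_, rfl⟩
  obtain ⟨d, hd⟩ : ∃ d, v 3 = d := ⟨_, rfl⟩
  have hD : (b * c - 9 * a * d) ^ 2 - 4 * (b ^ 2 - 3 * a * c) * (c ^ 2 - 3 * b * d) =
      3 * mm v := by
    rw [mm, dsc, ha, hb, hc, hd]
    ring
  have hfin : ∀ u : Fin 4 → ℝ, u 0 ^ 3 + u 2 ^ 3 = a → 3 * (u 0 ^ 2 * u 1 + u 2 ^ 2 * u 3) = b →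
      3 * (u 0 * u 1 ^ 2 + u 2 * u 3 ^ 2) = c → u 1 ^ 3 + u 3 ^ 3 = d → th u = v := by
    intro u h0 h1 h2 h3
    funext i
    fin_cases i
    · exact h0.trans ha.symm
    · exact h1.trans hb.symm
    · exact h2.trans hc.symm
    · exact h3.trans hd.symm
  by_cases hP : b ^ 2 - 3 * a * c = 0
  · have ha0 : a ≠ 0 := by
      intro h
      rw [h] at hP hD
      have hb0 : b = 0 := by
        have : b ^ 2 = 0 := by linarith
        exact pow_eq_zero_iff (by norm_num) |>.mp this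
      rw [hb0] at hD
      nlinarith
    obtain ⟨p, hp⟩ := exists_cube a
    obtain ⟨q, hq⟩ := exists_cube (d - b ^ 3 / (27 * a ^ 2))
    have hc' : c = b ^ 2 / (3 * a) := by
      field_simp
      linarith
    refine ⟨![p, p * (b / (3 * a)), 0, q], hfin _ ?_ ?_ ?_ ?_⟩
    · change p ^ 3 + 0 ^ 3 = a
      rw [hp]
      ring
    · change 3 * (p ^ 2 * (p * (b / (3 * a))) + 0 ^ 2 * q) = b
      have : 3 * (p ^ 2 * (p * (b / (3 * a))) + 0 ^ 2 * q) = 3 * (p ^ 3 * (b / (3 * a))) := by ring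
      rw [this, hp]
      field_simp
    · change 3 * (p * (p * (b / (3 * a))) ^ 2 + 0 * q ^ 2) = c
      have : 3 * (p * (p * (b / (3 * a))) ^ 2 + 0 * q ^ 2) = 3 * (p ^ 3 * (b / (3 * a)) ^ 2) := by
        ring
      rw [this, hp, hc']
      field_simp
    · change (p * (b / (3 * a))) ^ 3 + q ^ 3 = d
      rw [mul_pow, hp, hq]
      field_simp
      ring
  · set P := b ^ 2 - 3 * a * c with hPd
    set Q := b * c - 9 * a * d with hQd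
    set R := c ^ 2 - 3 * b * d with hRd
    set δ := Real.sqrt (3 * mm v) with hδ
    have hδ0 : 0 < δ := Real.sqrt_pos.mpr (by linarith)
    have hδ2 : δ ^ 2 = Q ^ 2 - 4 * P * R := by
      rw [hδ, Real.sq_sqrt (by linarith)]
      exact hD.symm
    obtain ⟨ρ, hρ⟩ : ∃ ρ, ρ = (Q + δ) / (2 * P) := ⟨_, rfl⟩
    obtain ⟨τ, hτ⟩ : ∃ τ, τ = (Q - δ) / (2 * P) := ⟨_, rfl⟩
    have hρ1 : P * ρ ^ 2 = Q * ρ - R := by
      rw [hρ]
      field_simp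
      nlinarith [hδ2]
    have hτ1 : P * τ ^ 2 = Q * τ - R := by
      rw [hτ]
      field_simp
      nlinarith [hδ2]
    have hne : ρ - τ ≠ 0 := by
      rw [hρ, hτ]
      have : (Q + δ) / (2 * P) - (Q - δ) / (2 * P) = δ / P := by
        field_simp
        ring
      rw [this]
      exact div_ne_zero hδ0.ne' hP
    obtain ⟨α, hα⟩ : ∃ α, α = (b / 3 - a * τ) / (ρ - τ) := ⟨_, rfl⟩
    obtain ⟨β, hβ⟩ : ∃ β, β = (a * ρ - b / 3) / (ρ - τ) := ⟨_, rfl⟩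
    have e0 : α + β = a := by
      rw [hα, hβ]
      field_simp
      ring
    have e1 : α * ρ + β * τ = b / 3 := by
      rw [hα, hβ]
      field_simp
      ring
    have e2 : α * ρ ^ 2 + β * τ ^ 2 = c / 3 := by
      have h1 : P * (α * ρ ^ 2 + β * τ ^ 2) = P * (c / 3) := by
        calc P * (α * ρ ^ 2 + β * τ ^ 2) = α * (P * ρ ^ 2) + β * (P * τ ^ 2) := by ring
          _ = Q * (α * ρ + β * τ) - R * (α + β) := by rw [hρ1, hτ1]; ring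
          _ = P * (c / 3) := by rw [e1, e0, hPd, hQd, hRd]; ring
      exact mul_left_cancel₀ hP h1
    have e3 : α * ρ ^ 3 + β * τ ^ 3 = d := by
      have h1 : P * (α * ρ ^ 3 + β * τ ^ 3) = P * d := by
        calc P * (α * ρ ^ 3 + β * τ ^ 3) = α * ρ * (P * ρ ^ 2) + β * τ * (P * τ ^ 2) := by ring
          _ = Q * (α * ρ ^ 2 + β * τ ^ 2) - R * (α * ρ + β * τ) := by rw [hρ1, hτ1]; ring
          _ = P * d := by rw [e2, e1, hPd, hQd, hRd]; ring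
      exact mul_left_cancel₀ hP h1
    obtain ⟨p, hp⟩ := exists_cube α
    obtain ⟨q, hq⟩ := exists_cube β
    refine ⟨![p, p * ρ, q, q * τ], hfin _ ?_ ?_ ?_ ?_⟩
    · change p ^ 3 + q ^ 3 = a
      rw [hp, hq, e0]
    · change 3 * (p ^ 2 * (p * ρ) + q ^ 2 * (q * τ)) = b
      have : 3 * (p ^ 2 * (p * ρ) + q ^ 2 * (q * τ)) = 3 * (p ^ 3 * ρ + q ^ 3 * τ) := by ring
      rw [this, hp, hq, e1]
      ring
    · change 3 * (p * (p * ρ) ^ 2 + q * (q * τ) ^ 2) = c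
      have : 3 * (p * (p * ρ) ^ 2 + q * (q * τ) ^ 2) = 3 * (p ^ 3 * ρ ^ 2 + q ^ 3 * τ ^ 2) := by
        ring
      rw [this, hp, hq, e2]
      ring
    · change (p * ρ) ^ 3 + (q * τ) ^ 3 = d
      rw [mul_pow, mul_pow, hp, hq, e3]

/-- THB -/
theorem thb : ThbStmt := by
  refine ⟨fun v hv => ?_, th_inj⟩
  obtain ⟨u, hu⟩ := th_surj' v hv
  have hd : dt u ≠ 0 := by
    intro h
    rw [← hu, mm_th, h] at hv
    norm_num at hv
  rcases lt_or_gt_of_ne hd with h | h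
  · refine ⟨![u 2, u 3, u 0, u 1], ?_, ?_⟩
    · rw [dt_swap]
      linarith
    · rw [th_swap, hu]
  · exact ⟨u, h, hu⟩

end Pool.Agent.LeoG.H87
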