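import Pool.Agent.LeoG.UpStmts

/-!
Module IDN of squad LEOG: polynomial identities for binary cubic forms.
-/

set_option autoImplicit false

open Pool.Agent.LeoK

namespace Pool.Agent.LeoG.H87

section

variable {A : Type} [CommRing A]

lemma gact_0 (v : Q4 A) (x y z w : A) : gact v x y z w 0 = gval v x z := rfl

lemma gact_1 (v : Q4 A) (x y z w : A) : gact v x y z w 1 =
    3 * v 0 * x ^ 2 * y + v 1 * (x ^ 2 * w + 2 * x * y * z) + v 2 * (2 * x * z * w + y * z ^ 2) +
      3 * v 3 * z ^ 2 * w := rfl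

lemma gact_2 (v : Q4 A) (x y z w : A) : gact v x y z w 2 =
    3 * v 0 * x * y ^ 2 + v 1 * (2 * x * y * w + y ^ 2 * z) + v 2 * (x * w ^ 2 + 2 * y * z * w) +
      3 * v 3 * z * w ^ 2 := rfl

lemma gact_3 (v : Q4 A) (x y z w : A) : gact v x y z w 3 = gval v y w := rfl

lemma syz (v : Q4 A) (X Y : A) :
    gcov v X Y ^ 2 + 27 * dsc v * gval v X Y ^ 2 = 4 * ghes v X Y ^ 3 := by
  simp only [gcov, dsc, gval, ghes]
  ring

lemma gval_gact (v : Q4 A) (x y z w X Y : A) :
    gval (gact v x y z w) X Y = gval v (x * X + y * Y) (z * X + w * Y) := by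
  rw [gval, gact_0, gact_1, gact_2, gact_3]
  simp only [gval]
  ring

lemma dsc_gact (v : Q4 A) (x y z w : A) :
    dsc (gact v x y z w) = (x * w - y * z) ^ 6 * dsc v := by
  rw [dsc, gact_0, gact_1, gact_2, gact_3]
  simp only [gval, dsc]
  ring

lemma ghes_gact (v : Q4 A) (x y z w X Y : A) : ghes (gact v x y z w) X Y =
    (x * w - y * z) ^ 2 * ghes v (x * X + y * Y) (z * X + w * Y) := by
  rw [ghes, gact_0, gact_1, gact_2, gact_3]
  simp only [gval, ghes]
  ring

lemma gact_gact (v : Q4 A) (x y z w x' y' z' w' : A) :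
    gact (gact v x y z w) x' y' z' w' =
      gact v (x * x' + y * z') (x * y' + y * w') (z * x' + w * z') (z * y' + w * w') := by
  funext i
  fin_cases i
  · change gval (gact v x y z w) x' z' = gval v _ _
    rw [gval_gact]
  · change gact (gact v x y z w) x' y' z' w' 1 = gact v _ _ _ _ 1
    rw [gact_1, gact_0, gact_1, gact_2, gact_3, gact_1]
    simp only [gval]
    ring
  · change gact (gact v x y z w) x' y' z' w' 2 = gact v _ _ _ _ 2
    rw [gact_2, gact_0, gact_1, gact_2, gact_3, gact_2]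
    simp only [gval]
    ring
  · change gval (gact v x y z w) y' w' = gval v _ _
    rw [gval_gact]

lemma gcov_gact (v : Q4 A) (x y z w X Y : A) : gcov (gact v x y z w) X Y =
    (x * w - y * z) ^ 3 * gcov v (x * X + y * Y) (z * X + w * Y) := by
  rw [gcov, gact_0, gact_1, gact_2, gact_3]
  simp only [gval, gcov]
  ring

end

/-- IDN -/
theorem idn : IdnStmt := by
  intro A _ v
  exact ⟨syz v, fun x y z w => ⟨dsc_gact v x y z w, gval_gact v x y z w, ghes_gact v x y z w,
    gcov_gact v x y z w, gact_gact v x y z w⟩⟩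

end Pool.Agent.LeoG.H87
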